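import Mathlib

open Filter Topology Finset

namespace Pool.Agent.Results.MP_677ad5_pr.SecondLargest

/-- The `n`-cube `Q_n`: vertices are the 0/1 sequences of length `n`, two of them being adjacent
when they differ in exactly one coordinate. -/
def cube (n : ℕ) : SimpleGraph (Fin n → Bool) where
  Adj x y := ∃! i, x i ≠ y i
  symm := by
    constructor
    intro x y h
    obtain ⟨i, hi, hu⟩ := h
    exact ⟨i, fun h => hi h.symm, fun j hj => hu j (fun h => hj h.symm)⟩
  loopless := by
    constructor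
    intro x h
    obtain ⟨i, hi, _⟩ := h
    exact hi rfl

noncomputable instance instFintypeEdgeSet (n : ℕ) : Fintype (cube n).edgeSet := Fintype.ofFinite _

/-- A configuration: one label for every vertex of `Q_n` and one label for every edge of `Q_n`
(`true` means retained). -/
abbrev Config (n : ℕ) : Type := ((Fin n → Bool) → Bool) × ((cube n).edgeSet → Bool)

/-- The weight of a single Bernoulli(`p`) label. -/
def bern (p : ℝ) (b : Bool) : ℝ := if b = true then p else 1 - p

open scoped Classical in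
/-- The probability of the event `S` when all labels are independent, vertex labels being
Bernoulli(`pv`) and edge labels being Bernoulli(`pe`). -/
noncomputable def prob (n : ℕ) (pv pe : ℝ) (S : Set (Config n)) : ℝ :=
  ∑ ω : Config n,
    if ω ∈ S then (∏ v : Fin n → Bool, bern pv (ω.1 v)) * (∏ e : (cube n).edgeSet, bern pe (ω.2 e))
    else 0

/-- The random cubical graph `h_n = (V_n, E_n)`, as a subgraph of `Q_n`: `V_n` is the set of retained
vertices, and an edge of `Q_n` is in `E_n` when both its ends are in `V_n` and it is retained. -/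
def h (n : ℕ) (ω : Config n) : (cube n).Subgraph where
  verts := {v | ω.1 v = true}
  Adj x y := ω.1 x = true ∧ ω.1 y = true ∧ ∃ a : (cube n).Adj x y, ω.2 ⟨s(x, y), a⟩ = true
  adj_sub := fun hxy => hxy.2.2.1
  edge_vert := fun hxy => hxy.1
  symm := by
    constructor
    rintro x y ⟨hx, hy, a, ha⟩
    refine ⟨hy, hx, a.symm, ?_⟩
    have e : (⟨s(y, x), a.symm⟩ : (cube n).edgeSet) = ⟨s(x, y), a⟩ := Subtype.ext Sym2.eq_swap
    rw [e]
    exact ha

/-- `m_p = ⌊-1 / log_2 (1 - p)⌋`. -/
noncomputable def mp (p : ℝ) : ℕ := ⌊-1 / Real.logb 2 (1 - p)⌋₊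

/-- The three properties of Q1, with `η` in place of `o(1)` and `m` in place of `m_p`: one component
`C` of `h_n` contains at least `(1 - η) |V_n|` vertices, every other component has at most `m`
vertices, and some other component has exactly `m` vertices. -/
def Good (n : ℕ) (m : ℕ) (η : ℝ) (ω : Config n) : Prop :=
  ∃ C : (h n ω).coe.ConnectedComponent,
    (1 - η) * ((h n ω).verts.ncard : ℝ) ≤ (C.supp.ncard : ℝ) ∧
    (∀ D : (h n ω).coe.ConnectedComponent, D ≠ C → D.supp.ncard ≤ m) ∧
    (∃ D : (h n ω).coe.ConnectedComponent, D ≠ C ∧ D.supp.ncard = m)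

/-- The assertion of Q1: whenever `p = p_v p_e → 0` and `p n → ∞`, there is a sequence `η_n → 0`
such that the three properties hold with probability tending to `1`. -/
def Q1 : Prop :=
  ∀ pv pe : ℕ → ℝ, (∀ n, 0 < pv n ∧ pv n ≤ 1) → (∀ n, 0 < pe n ∧ pe n ≤ 1) →
    Tendsto (fun n => pv n * pe n) atTop (𝓝 0) →
    Tendsto (fun n : ℕ => pv n * pe n * n) atTop atTop →
    ∃ η : ℕ → ℝ, Tendsto η atTop (𝓝 0) ∧
      Tendsto (fun n => prob n (pv n) (pe n) {ω | Good n (mp (pv n * pe n)) (η n) ω}) atTop (𝓝 1)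

/-! ### Finite product measures -/

section Cyl

variable {ι : Type*} [Fintype ι]

/-- weight of a labelling -/
def W (p : ℝ) (b : ι → Bool) : ℝ := ∏ e, bern p (b e)

lemma bern_nonneg {p : ℝ} (h0 : 0 ≤ p) (h1 : p ≤ 1) (b : Bool) : 0 ≤ bern p b := by
  unfold bern; split <;> linarith

lemma W_nonneg {p : ℝ} (h0 : 0 ≤ p) (h1 : p ≤ 1) (b : ι → Bool) : 0 ≤ W p b :=
  Finset.prod_nonneg fun _ _ => bern_nonneg h0 h1 _

lemma sum_bern (p : ℝ) : ∑ b : Bool, bern p b = 1 := by
  simp [bern]

lemma cyl_prob [DecidableEq ι] (p : ℝ) (F : Finset ι) (c : ι → Bool) :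
    ∑ b : ι → Bool, (if ∀ e ∈ F, b e = c e then W p b else 0) = ∏ e ∈ F, bern p (c e) := by
  have h1 : ∀ b : ι → Bool, (if ∀ e ∈ F, b e = c e then W p b else 0)
      = ∏ e, (if e ∈ F → b e = c e then bern p (b e) else 0) := by
    intro b
    split_ifs with hb
    · unfold W
      refine Finset.prod_congr rfl fun e _ => ?_
      rw [if_pos (hb e)]
    · push Not at hb
      obtain ⟨e, he, hne⟩ := hb
      symm
      apply Finset.prod_eq_zero (Finset.mem_univ e)
      rw [if_neg]
      intro h
      exact hne (h he)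
  simp_rw [h1]
  have h2 := Finset.prod_univ_sum (fun _ : ι => (Finset.univ : Finset Bool))
    (fun (e : ι) (β : Bool) => if e ∈ F → β = c e then bern p β else 0)
  rw [Fintype.piFinset_univ] at h2
  rw [← h2]
  rw [← Finset.prod_subset (Finset.subset_univ F)]
  · refine Finset.prod_congr rfl fun e he => ?_
    simp only [he, true_imp_iff]
    rw [Finset.sum_ite_eq']
    simp
  · intro e _ he
    simp only [he, false_imp_iff, if_true]
    exact sum_bern p

lemma sum_W [DecidableEq ι] (p : ℝ) : ∑ b : ι → Bool, W p b = 1 := by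
  have := cyl_prob (ι := ι) p ∅ (fun _ => true)
  simpa using this

end Cyl

/-! ### Geodesic paths in the cube -/

section Paths

variable {n k : ℕ}

/-- A path with `k` edges: starting vertex and the list of (distinct) directions. -/
abbrev Idx (n k : ℕ) : Type := (Fin n → Bool) × (Fin k ↪ Fin n)

/-- indicator of the coordinates flipped during the first `j` steps -/
def mask (σ : Fin k ↪ Fin n) (j : ℕ) (i : Fin n) : Bool :=
  decide (∃ l : Fin k, l.val < j ∧ σ l = i)

/-- the `j`-th vertex of the path -/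
def vert (P : Idx n k) (j : ℕ) : Fin n → Bool := fun i => xor (P.1 i) (mask P.2 j i)

/-- flip one coordinate -/
def flip (v : Fin n → Bool) (d : Fin n) : Fin n → Bool := Function.update v d (!v d)

lemma vert_zero (P : Idx n k) : vert P 0 = P.1 := by
  funext i
  simp [vert, mask]

lemma mask_succ_ne {P : Idx n k} {j : ℕ} (hj : j < k) {i : Fin n} (hi : P.2 ⟨j, hj⟩ ≠ i) :
    mask P.2 (j + 1) i = mask P.2 j i := by
  unfold mask
  congr 1
  apply propext
  constructor
  · rintro ⟨l, hl, rfl⟩
    refine ⟨l, ?_, rfl⟩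
    rcases Nat.lt_succ_iff_lt_or_eq.mp hl with h | h
    · exact h
    · exfalso
      apply hi
      congr 1
      exact Fin.ext h.symm
  · rintro ⟨l, hl, rfl⟩
    exact ⟨l, by omega, rfl⟩

lemma mask_self {P : Idx n k} {j b : ℕ} (hj : j < k) (hb : j < b) :
    mask P.2 b (P.2 ⟨j, hj⟩) = true := by
  unfold mask
  simp only [decide_eq_true_eq]
  exact ⟨⟨j, hj⟩, hb, rfl⟩

lemma mask_self' {P : Idx n k} {j b : ℕ} (hj : j < k) (hb : b ≤ j) :
    mask P.2 b (P.2 ⟨j, hj⟩) = false := by
  unfold mask
  simp only [decide_eq_false_iff_not]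
  rintro ⟨l, hl, h⟩
  have := P.2.injective h
  subst this
  simp at hl
  omega

lemma vert_ne {P : Idx n k} {a b : ℕ} (hab : a < b) (hb : b ≤ k) : vert P a ≠ vert P b := by
  intro h
  have hk : a < k := by omega
  have := congrFun h (P.2 ⟨a, hk⟩)
  unfold vert at this
  rw [mask_self' hk le_rfl, mask_self hk hab] at this
  cases hx : P.1 (P.2 ⟨a, hk⟩) <;> simp [hx] at this

lemma vert_inj {P : Idx n k} {a b : ℕ} (ha : a ≤ k) (hb : b ≤ k) (h : vert P a = vert P b) :
    a = b := by
  rcases lt_trichotomy a b with h1 | h1 | h1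
  · exact absurd h (vert_ne h1 hb)
  · exact h1
  · exact absurd h.symm (vert_ne h1 ha)

lemma vert_succ_ne {P : Idx n k} {j : ℕ} (hj : j < k) :
    vert P j (P.2 ⟨j, hj⟩) ≠ vert P (j + 1) (P.2 ⟨j, hj⟩) := by
  unfold vert
  rw [mask_self' hj le_rfl, mask_self hj (Nat.lt_succ_self j)]
  cases P.1 (P.2 ⟨j, hj⟩) <;> simp

lemma vert_succ_eq {P : Idx n k} {j : ℕ} (hj : j < k) {i : Fin n} (hi : P.2 ⟨j, hj⟩ ≠ i) :
    vert P j i = vert P (j + 1) i := by
  unfold vert
  rw [mask_succ_ne hj hi]

lemma vert_adj (P : Idx n k) {j : ℕ} (hj : j < k) : (cube n).Adj (vert P j) (vert P (j + 1)) := by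
  refine ⟨P.2 ⟨j, hj⟩, vert_succ_ne hj, ?_⟩
  intro i hi
  by_contra hne
  exact hi (vert_succ_eq hj (fun h => hne h.symm))

lemma adj_flip (v : Fin n → Bool) (d : Fin n) : (cube n).Adj v (flip v d) := by
  refine ⟨d, ?_, ?_⟩
  · simp [flip]
  · intro i hi
    by_contra hne
    apply hi
    simp [flip, Function.update_of_ne hne]

lemma eq_flip_of_adj {u w : Fin n → Bool} (h : (cube n).Adj u w) : ∃ d, w = flip u d := by
  obtain ⟨d, hd, hu⟩ := h
  refine ⟨d, ?_⟩
  funext i
  by_cases hi : i = d
  · subst hi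
    simp only [flip, Function.update_self]
    revert hd
    cases u i <;> cases w i <;> simp
  · simp only [flip, Function.update_of_ne hi]
    by_contra hne
    exact hi (hu i (fun h => hne h.symm))

lemma flip_injective (v : Fin n → Bool) : Function.Injective (flip v) := by
  intro d d' h
  by_contra hne
  have := congrFun h d
  simp [flip, Function.update_of_ne hne] at this

open scoped Classical in
/-- edges incident to the path -/
noncomputable def F (P : Idx n k) : Finset (cube n).edgeSet :=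
  Finset.univ.filter fun e => ∃ j ≤ k, vert P j ∈ e.val

open scoped Classical in
/-- edges of the path -/
noncomputable def O (P : Idx n k) : Finset (cube n).edgeSet :=
  Finset.univ.filter fun e => ∃ j < k, e.val = s(vert P j, vert P (j + 1))

lemma mem_F {P : Idx n k} {e : (cube n).edgeSet} : e ∈ F P ↔ ∃ j ≤ k, vert P j ∈ e.val := by
  classical
  simp [F]

lemma mem_O {P : Idx n k} {e : (cube n).edgeSet} :
    e ∈ O P ↔ ∃ j < k, e.val = s(vert P j, vert P (j + 1)) := by
  classical
  simp [O]

lemma O_sub_F (P : Idx n k) : O P ⊆ F P := by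
  intro e he
  obtain ⟨j, hj, hje⟩ := mem_O.mp he
  refine mem_F.mpr ⟨j, hj.le, ?_⟩
  rw [hje]
  exact Sym2.mem_mk_left _ _

open scoped Classical in
/-- the event that the path is open and that all other edges incident to it are closed -/
def A (P : Idx n k) (b : (cube n).edgeSet → Bool) : Prop :=
  ∀ e ∈ F P, b e = decide (e ∈ O P)

/-- the two paths have no vertex in common -/
def VDisj (P Q : Idx n k) : Prop := ∀ a ≤ k, ∀ c ≤ k, vert P a ≠ vert Q c

lemma mem_O_of_A {P : Idx n k} {b : (cube n).edgeSet → Bool} (h : A P b) {e : (cube n).edgeSet}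
    (he : e ∈ F P) (hb : b e = true) : e ∈ O P := by
  classical
  have := h e he
  rw [hb] at this
  simpa using this.symm

lemma open_of_A {P : Idx n k} {b : (cube n).edgeSet → Bool} (h : A P b) {e : (cube n).edgeSet}
    (he : e ∈ O P) : b e = true := by
  classical
  have := h e (O_sub_F P he)
  rw [this]
  simpa using he

/-- If a path is alone and another one meets it, the other one starts on it. -/
lemma start_mem {P Q : Idx n k} {b : (cube n).edgeSet → Bool} (hP : A P b) (hQ : A Q b)
    (h : ¬ VDisj P Q) : ∃ a ≤ k, Q.1 = vert P a := by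
  classical
  unfold VDisj at h
  push Not at h
  obtain ⟨a, ha, c, hc, hac⟩ := h
  have hex : ∃ c, c ≤ k ∧ ∃ a ≤ k, vert P a = vert Q c := ⟨c, hc, a, ha, hac⟩
  have hfind := Nat.find_spec hex
  have hmin := fun m (hm : m < Nat.find hex) => Nat.find_min hex hm
  obtain ⟨hck, a', ha', hac'⟩ := hfind
  rcases Nat.eq_zero_or_pos (Nat.find hex) with h0 | hpos
  · rw [h0, vert_zero] at hac'
    exact ⟨a', ha', hac'.symm⟩
  · exfalso
    obtain ⟨j, hj⟩ : ∃ j, Nat.find hex = j + 1 := ⟨Nat.find hex - 1, by omega⟩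
    rw [hj] at hck hac'
    have hjk : j < k := by omega
    let e : (cube n).edgeSet := ⟨s(vert Q j, vert Q (j + 1)), vert_adj Q hjk⟩
    have heO : e ∈ O Q := mem_O.mpr ⟨j, hjk, rfl⟩
    have hopen := open_of_A hQ heO
    have heF : e ∈ F P := mem_F.mpr ⟨a', ha', by rw [hac']; exact Sym2.mem_mk_right _ _⟩
    obtain ⟨l, hl, hle⟩ := mem_O.mp (mem_O_of_A hP heF hopen)
    have hmem : vert Q j ∈ s(vert P l, vert P (l + 1)) := by
      rw [← hle]; exact Sym2.mem_mk_left _ _
    rw [Sym2.mem_iff] at hmem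
    apply hmin j (by omega)
    refine ⟨by omega, ?_⟩
    rcases hmem with h1 | h1
    · exact ⟨l, hl.le, h1.symm⟩
    · exact ⟨l + 1, hl, h1.symm⟩

/-- Two lone paths with the same starting vertex are equal. -/
lemma eq_of_start {P Q : Idx n k} {b : (cube n).edgeSet → Bool} (hP : A P b) (hQ : A Q b)
    (h : P.1 = Q.1) : P = Q := by
  have key : ∀ j ≤ k, ∀ i ≤ j, vert P i = vert Q i := by
    intro j
    induction j with
    | zero =>
      intro _ i hi
      obtain rfl : i = 0 := by omega
      rw [vert_zero, vert_zero, h]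
    | succ j ih =>
      intro hj i hi
      have ih' := ih (by omega)
      rcases Nat.le_succ_iff.mp hi with hi' | hi'
      · exact ih' i hi'
      · subst hi'
        have hjk : j < k := by omega
        let e : (cube n).edgeSet := ⟨s(vert Q j, vert Q (j + 1)), vert_adj Q hjk⟩
        have heO : e ∈ O Q := mem_O.mpr ⟨j, hjk, rfl⟩
        have hopen := open_of_A hQ heO
        have heF : e ∈ F P :=
          mem_F.mpr ⟨j, hjk.le, by rw [ih' j le_rfl]; exact Sym2.mem_mk_left _ _⟩
        obtain ⟨l, hl, hle⟩ := mem_O.mp (mem_O_of_A hP heF hopen)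
        have hle' : s(vert Q j, vert Q (j + 1)) = s(vert P l, vert P (l + 1)) := hle
        rw [Sym2.eq_iff] at hle'
        rcases hle' with ⟨h1, h2⟩ | ⟨h1, h2⟩
        · rw [← ih' j le_rfl] at h1
          have := vert_inj hjk.le hl.le h1
          subst this
          exact h2.symm
        · rw [← ih' j le_rfl] at h1
          have hjl := vert_inj hjk.le hl h1
          have h3 : vert Q (j + 1) = vert Q l := by
            rw [h2]; exact ih' l (by omega)
          have := vert_inj hj hl.le h3
          omega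
  refine Prod.ext h ?_
  ext l
  have hl := l.isLt
  have h1 := key (l.val + 1) hl l.val (by omega)
  have h2 := key (l.val + 1) hl (l.val + 1) le_rfl
  by_contra hne
  have hne' : P.2 ⟨l.val, hl⟩ ≠ Q.2 ⟨l.val, hl⟩ := by
    intro h
    apply hne
    have : (⟨l.val, hl⟩ : Fin k) = l := Fin.ext rfl
    rw [this] at h
    rw [h]
  have h3 := vert_succ_eq (P := P) hl hne'
  have h4 := vert_succ_ne (P := Q) hl
  rw [h1, h2] at h3
  exact h4 h3

end Paths

/-! ### Counting -/

section Counting

variable {n k : ℕ}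

open scoped Classical in
lemma card_O (P : Idx n k) : (O P).card = k := by
  have h : O P = Finset.univ.image
      (fun j : Fin k => (⟨s(vert P j, vert P (j + 1)), vert_adj P j.isLt⟩ : (cube n).edgeSet)) := by
    ext e
    rw [mem_O, Finset.mem_image]
    constructor
    · rintro ⟨j, hj, hje⟩
      exact ⟨⟨j, hj⟩, Finset.mem_univ _, Subtype.ext hje.symm⟩
    · rintro ⟨j, _, hje⟩
      exact ⟨j, j.isLt, by rw [← hje]⟩
  rw [h, Finset.card_image_of_injective, Finset.card_univ, Fintype.card_fin]
  intro j l hjl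
  have h1 : s(vert P j, vert P (j + 1)) = s(vert P l, vert P (l + 1)) := congrArg Subtype.val hjl
  rw [Sym2.eq_iff] at h1
  rcases h1 with ⟨h1, _⟩ | ⟨h1, h2⟩
  · exact Fin.ext (vert_inj j.isLt.le l.isLt.le h1)
  · have h3 := vert_inj j.isLt.le l.isLt h1
    have h4 := vert_inj j.isLt l.isLt.le h2
    omega

lemma eq_of_mem_edge {v : Fin n → Bool} {e : (cube n).edgeSet} (hv : v ∈ e.val) :
    ∃ d, e = ⟨s(v, flip v d), adj_flip v d⟩ := by
  obtain ⟨w, hw⟩ := hv
  have hadj : (cube n).Adj v w := by
    have := e.2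
    rw [hw] at this
    exact this
  obtain ⟨d, rfl⟩ := eq_flip_of_adj hadj
  exact ⟨d, Subtype.ext hw⟩

open scoped Classical in
lemma card_F_le (P : Idx n k) : (F P).card ≤ (k + 1) * n := by
  have h : F P ⊆ Finset.univ.image
      (fun x : Fin (k + 1) × Fin n =>
        (⟨s(vert P x.1, flip (vert P x.1) x.2), adj_flip _ _⟩ : (cube n).edgeSet)) := by
    intro e he
    obtain ⟨j, hj, hje⟩ := mem_F.mp he
    obtain ⟨d, hd⟩ := eq_of_mem_edge hje
    rw [Finset.mem_image]
    exact ⟨(⟨j, by omega⟩, d), Finset.mem_univ _, hd.symm⟩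
  refine (Finset.card_le_card h).trans (Finset.card_image_le.trans ?_)
  simp

open scoped Classical in
lemma card_bd (P : Idx n k) : (k + 1) * n ≤ (F P \ O P).card + (k + 1) * (k + 1) := by
  let S : Finset (Fin (k + 1) × Fin n) :=
    Finset.univ.filter fun x => ∃ l ≤ k, flip (vert P x.1) x.2 = vert P l
  let S' : Finset (Fin (k + 1) × Fin n) :=
    Finset.univ.filter fun x => ¬ ∃ l ≤ k, flip (vert P x.1) x.2 = vert P l
  have hSS : S.card + S'.card = (k + 1) * n := by
    have := Finset.card_filter_add_card_filter_not (s := (Finset.univ : Finset (Fin (k + 1) × Fin n)))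
      (fun x => ∃ l ≤ k, flip (vert P x.1) x.2 = vert P l)
    rw [Finset.card_univ, Fintype.card_prod, Fintype.card_fin, Fintype.card_fin] at this
    exact this
  have hS : S.card ≤ (k + 1) * (k + 1) := by
    have hV : ((Finset.range (k + 1)).image (vert P)).card ≤ k + 1 := by
      refine Finset.card_image_le.trans ?_
      simp
    have : S.card ≤ ((Finset.univ : Finset (Fin (k + 1))) ×ˢ
        ((Finset.range (k + 1)).image (vert P))).card := by
      apply Finset.card_le_card_of_injOn (fun x => (x.1, flip (vert P x.1) x.2))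
      · intro x hx
        have hx' := (Finset.mem_filter.mp hx).2
        obtain ⟨l, hl, hle⟩ := hx'
        simp only [Finset.coe_product, Set.mem_prod, Finset.mem_coe, Finset.mem_univ, true_and,
          Finset.mem_image, Finset.mem_range]
        exact ⟨l, by omega, hle.symm⟩
      · intro x _ y _ hxy
        have h1 : x.1 = y.1 := (Prod.mk.inj hxy).1
        have h2 : flip (vert P x.1) x.2 = flip (vert P y.1) y.2 := (Prod.mk.inj hxy).2
        rw [← h1] at h2
        exact Prod.ext h1 (flip_injective _ h2)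
    refine this.trans ?_
    rw [Finset.card_product, Finset.card_univ, Fintype.card_fin]
    exact Nat.mul_le_mul_left _ hV
  have hS' : S'.card ≤ (F P \ O P).card := by
    apply Finset.card_le_card_of_injOn
      (fun x : Fin (k + 1) × Fin n =>
        (⟨s(vert P x.1, flip (vert P x.1) x.2), adj_flip _ _⟩ : (cube n).edgeSet))
    · intro x hx
      have hx' := (Finset.mem_filter.mp hx).2
      push Not at hx'
      rw [Finset.mem_coe, Finset.mem_sdiff]
      constructor
      · exact mem_F.mpr ⟨x.1, by omega, Sym2.mem_mk_left _ _⟩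
      · intro hO
        obtain ⟨l, hl, hle⟩ := mem_O.mp hO
        have hmem : flip (vert P x.1) x.2 ∈ s(vert P l, vert P (l + 1)) := by
          rw [← hle]; exact Sym2.mem_mk_right _ _
        rw [Sym2.mem_iff] at hmem
        rcases hmem with h1 | h1
        · exact hx' l hl.le h1
        · exact hx' (l + 1) hl h1
    · intro x hx y hy hxy
      have hx' := (Finset.mem_filter.mp hx).2
      push Not at hx'
      have h1 : s(vert P x.1, flip (vert P x.1) x.2) = s(vert P y.1, flip (vert P y.1) y.2) :=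
        congrArg Subtype.val hxy
      rw [Sym2.eq_iff] at h1
      rcases h1 with ⟨h1, h2⟩ | ⟨_, h2⟩
      · have h3 := vert_inj (by omega) (by omega) h1
        have h4 : x.1 = y.1 := Fin.ext h3
        rw [← h4] at h2
        exact Prod.ext h4 (flip_injective _ h2)
      · exact absurd h2 (hx' y.1 (by omega))
  omega

lemma edge_of_inter {P Q : Idx n k} (hPQ : VDisj P Q) {e : (cube n).edgeSet} (hP : e ∈ F P)
    (hQ : e ∈ F Q) : ∃ a ≤ k, ∃ c ≤ k, e.val = s(vert P a, vert Q c) := by
  obtain ⟨a, ha, hae⟩ := mem_F.mp hP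
  obtain ⟨c, hc, hce⟩ := mem_F.mp hQ
  exact ⟨a, ha, c, hc, ((Sym2.mem_and_mem_iff (hPQ a ha c hc)).mp ⟨hae, hce⟩)⟩

open scoped Classical in
lemma card_inter {P Q : Idx n k} (hPQ : VDisj P Q) :
    (F P ∩ F Q).card ≤ (k + 1) * (k + 1) := by
  have h : (F P ∩ F Q).image Subtype.val ⊆ Finset.univ.image
      (fun x : Fin (k + 1) × Fin (k + 1) => s(vert P x.1, vert Q x.2)) := by
    intro z hz
    obtain ⟨e, he, rfl⟩ := Finset.mem_image.mp hz
    rw [Finset.mem_inter] at he
    obtain ⟨a, ha, c, hc, hac⟩ := edge_of_inter hPQ he.1 he.2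
    exact Finset.mem_image.mpr ⟨(⟨a, by omega⟩, ⟨c, by omega⟩), Finset.mem_univ _, hac.symm⟩
  have h2 := (Finset.card_le_card h).trans Finset.card_image_le
  rw [Finset.card_image_of_injective _ Subtype.val_injective] at h2
  simpa using h2

open scoped Classical in
lemma card_touch (P : Idx n k) :
    (Finset.univ.filter fun Q : Idx n k => VDisj P Q ∧ (F P ∩ F Q).Nonempty).card
      ≤ (k + 1) * (k + 1) * n * Fintype.card (Fin k ↪ Fin n) := by
  have h : (Finset.univ.filter fun Q : Idx n k => VDisj P Q ∧ (F P ∩ F Q).Nonempty) ⊆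
      Finset.univ.image (fun x : (Fin (k + 1) × Fin (k + 1) × Fin n) × (Fin k ↪ Fin n) =>
        ((fun i => xor (flip (vert P x.1.1) x.1.2.2 i) (mask x.2 x.1.2.1 i), x.2) : Idx n k)) := by
    intro Q hQ
    obtain ⟨hPQ, e, he⟩ := (Finset.mem_filter.mp hQ).2
    rw [Finset.mem_inter] at he
    obtain ⟨a, ha, c, hc, hac⟩ := edge_of_inter hPQ he.1 he.2
    have hadj : (cube n).Adj (vert P a) (vert Q c) := by
      have := e.2
      rw [hac] at this
      exact this
    obtain ⟨d, hd⟩ := eq_flip_of_adj hadj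
    rw [Finset.mem_image]
    refine ⟨((⟨a, by omega⟩, ⟨c, by omega⟩, d), Q.2), Finset.mem_univ _, ?_⟩
    refine Prod.ext ?_ rfl
    funext i
    simp only
    rw [← hd]
    simp [vert]
  refine (Finset.card_le_card h).trans (Finset.card_image_le.trans ?_)
  simp [Fintype.card_prod]
  ring_nf
  exact le_rfl

open scoped Classical in
lemma card_overlap {P : Idx n k} {b : (cube n).edgeSet → Bool} (hP : A P b) :
    (Finset.univ.filter fun Q : Idx n k => A Q b ∧ ¬ VDisj P Q).card ≤ k + 1 := by
  have hV : ((Finset.range (k + 1)).image (vert P)).card ≤ k + 1 := by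
    refine Finset.card_image_le.trans ?_
    simp
  refine le_trans ?_ hV
  apply Finset.card_le_card_of_injOn (fun Q => Q.1)
  · intro Q hQ
    obtain ⟨hA, hV⟩ := (Finset.mem_filter.mp hQ).2
    obtain ⟨a, ha, hae⟩ := start_mem hP hA hV
    rw [Finset.mem_coe, Finset.mem_image]
    exact ⟨a, by simpa using Nat.lt_succ_of_le ha, hae.symm⟩
  · intro Q hQ R hR hQR
    obtain ⟨hA, _⟩ := (Finset.mem_filter.mp hQ).2
    obtain ⟨hB, _⟩ := (Finset.mem_filter.mp hR).2
    exact eq_of_start hA hB hQR

end Counting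

/-! ### The second moment method -/

section Moments

variable {n k : ℕ}

open scoped Classical in
/-- probability that the path is alone -/
noncomputable def PA (p : ℝ) (P : Idx n k) : ℝ :=
  ∑ b : (cube n).edgeSet → Bool, if A P b then W p b else 0

open scoped Classical in
/-- probability that both paths are alone -/
noncomputable def PAA (p : ℝ) (P Q : Idx n k) : ℝ :=
  ∑ b : (cube n).edgeSet → Bool, if A P b ∧ A Q b then W p b else 0

open scoped Classical in
lemma PA_eq (p : ℝ) (P : Idx n k) : PA p P = p ^ k * (1 - p) ^ ((F P \ O P).card) := by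
  have h := cyl_prob p (F P) (fun e => decide (e ∈ O P))
  have h2 : PA p P = ∏ e ∈ F P, bern p (decide (e ∈ O P)) := by
    rw [← h]
    unfold PA A
    refine Finset.sum_congr rfl fun b _ => ?_
    congr
  rw [h2, ← Finset.prod_sdiff (O_sub_F P)]
  have h3 : ∏ e ∈ O P, bern p (decide (e ∈ O P)) = p ^ k := by
    rw [Finset.prod_congr rfl (g := fun _ => p), Finset.prod_const, card_O]
    intro e he
    simp [bern, he]
  have h4 : ∏ e ∈ F P \ O P, bern p (decide (e ∈ O P)) = (1 - p) ^ ((F P \ O P).card) := by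
    rw [Finset.prod_congr rfl (g := fun _ => 1 - p), Finset.prod_const]
    intro e he
    simp [bern, (Finset.mem_sdiff.mp he).2]
  rw [h3, h4, mul_comm]

open scoped Classical in
lemma PAA_mul (p : ℝ) {P Q : Idx n k} (hPQ : VDisj P Q) :
    PAA p P Q * (1 - p) ^ ((F P ∩ F Q).card) = PA p P * PA p Q := by
  have hO : ∀ e ∈ F P, e ∈ O Q → False := by
    intro e he hQ
    obtain ⟨a, ha, hae⟩ := mem_F.mp he
    obtain ⟨l, hl, hle⟩ := mem_O.mp hQ
    rw [hle, Sym2.mem_iff] at hae
    rcases hae with h | h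
    · exact hPQ a ha l hl.le h
    · exact hPQ a ha (l + 1) hl h
  have hO' : ∀ e ∈ F Q, e ∈ O P → False := by
    intro e he hP
    obtain ⟨a, ha, hae⟩ := mem_F.mp he
    obtain ⟨l, hl, hle⟩ := mem_O.mp hP
    rw [hle, Sym2.mem_iff] at hae
    rcases hae with h | h
    · exact hPQ l hl.le a ha h.symm
    · exact hPQ (l + 1) hl a ha h.symm
  let c : (cube n).edgeSet → Bool := fun e => decide (e ∈ O P ∨ e ∈ O Q)
  have hc1 : ∀ e ∈ F P, decide (e ∈ O P) = c e := by
    intro e he
    simp only [c]
    congr 1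
    exact propext ⟨Or.inl, fun h => h.elim id fun h' => (hO e he h').elim⟩
  have hc2 : ∀ e ∈ F Q, decide (e ∈ O Q) = c e := by
    intro e he
    simp only [c]
    congr 1
    exact propext ⟨Or.inr, fun h => h.elim (fun h' => (hO' e he h').elim) id⟩
  have hPA : ∀ R : Idx n k, PA p R = ∏ e ∈ F R, bern p (decide (e ∈ O R)) := by
    intro R
    rw [← cyl_prob p (F R) (fun e => decide (e ∈ O R))]
    unfold PA A
    refine Finset.sum_congr rfl fun b _ => ?_
    congr
  have h1 : PAA p P Q = ∏ e ∈ F P ∪ F Q, bern p (c e) := by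
    rw [← cyl_prob p (F P ∪ F Q) c]
    unfold PAA
    refine Finset.sum_congr rfl fun b _ => ?_
    have : (A P b ∧ A Q b) ↔ ∀ e ∈ F P ∪ F Q, b e = c e := by
      unfold A
      constructor
      · rintro ⟨h1, h2⟩ e he
        rcases Finset.mem_union.mp he with he | he
        · rw [h1 e he]
          exact hc1 e he
        · rw [h2 e he]
          exact hc2 e he
      · intro h
        constructor
        · intro e he
          rw [h e (Finset.mem_union_left _ he)]
          exact (hc1 e he).symm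
        · intro e he
          rw [h e (Finset.mem_union_right _ he)]
          exact (hc2 e he).symm
    by_cases hb : A P b ∧ A Q b
    · rw [if_pos hb, if_pos (this.mp hb)]
    · rw [if_neg hb, if_neg (fun h => hb (this.mpr h))]
  have h2 : (1 - p) ^ ((F P ∩ F Q).card) = ∏ e ∈ F P ∩ F Q, bern p (c e) := by
    rw [Finset.prod_congr rfl (g := fun _ => 1 - p), Finset.prod_const]
    intro e he
    rw [Finset.mem_inter] at he
    have h3 : ¬ (e ∈ O P ∨ e ∈ O Q) := by
      rintro (h | h)
      · exact hO' e he.2 h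
      · exact hO e he.1 h
    simp only [bern, c, h3]
    simp
  rw [h1, h2, Finset.prod_union_inter, hPA P, hPA Q]
  congr 1
  · refine Finset.prod_congr rfl fun e he => ?_
    rw [hc1 e he]
  · refine Finset.prod_congr rfl fun e he => ?_
    rw [hc2 e he]

/-- common lower bound of the probabilities -/
def Lo (n k : ℕ) (p : ℝ) : ℝ := p ^ k * (1 - p) ^ ((k + 1) * n)

lemma Lo_pos {p : ℝ} (h0 : 0 < p) (h1 : p < 1) : 0 < Lo n k p := by
  unfold Lo
  have : 0 < 1 - p := by linarith
  positivity

open scoped Classical in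
lemma Lo_le_PA {p : ℝ} (h0 : 0 < p) (h1 : p < 1) (P : Idx n k) : Lo n k p ≤ PA p P := by
  rw [PA_eq]
  unfold Lo
  apply mul_le_mul_of_nonneg_left _ (by positivity)
  apply pow_le_pow_of_le_one (by linarith) (by linarith)
  exact (Finset.card_le_card Finset.sdiff_subset).trans (card_F_le P)

open scoped Classical in
lemma PA_mul_le {p : ℝ} (h0 : 0 < p) (h1 : p < 1) (P : Idx n k) :
    PA p P * (1 - p) ^ ((k + 1) * (k + 1)) ≤ Lo n k p := by
  rw [PA_eq]
  unfold Lo
  rw [mul_assoc, ← pow_add]
  apply mul_le_mul_of_nonneg_left _ (by positivity)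
  apply pow_le_pow_of_le_one (by linarith) (by linarith)
  exact card_bd P

lemma PAA_nonneg {p : ℝ} (h0 : 0 < p) (h1 : p < 1) (P Q : Idx n k) : 0 ≤ PAA p P Q := by
  unfold PAA
  apply Finset.sum_nonneg
  intro b _
  split_ifs
  · exact W_nonneg h0.le h1.le b
  · exact le_rfl

lemma PA_nonneg {p : ℝ} (h0 : 0 < p) (h1 : p < 1) (P : Idx n k) : 0 ≤ PA p P := by
  unfold PA
  apply Finset.sum_nonneg
  intro b _
  split_ifs
  · exact W_nonneg h0.le h1.le b
  · exact le_rfl

open scoped Classical in
lemma PAA_le_touch {p : ℝ} (h0 : 0 < p) (h1 : p < 1) {P Q : Idx n k} (hPQ : VDisj P Q) :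
    PAA p P Q ≤ (Lo n k p) ^ 2 / (1 - p) ^ (3 * ((k + 1) * (k + 1))) := by
  have hq : 0 < 1 - p := by linarith
  set t := (1 - p) ^ ((k + 1) * (k + 1)) with ht
  have htpos : 0 < t := by positivity
  have h3 : (1 - p) ^ (3 * ((k + 1) * (k + 1))) = t * t * t := by
    rw [ht, ← pow_add, ← pow_add]
    congr 1
    ring
  rw [h3, le_div_iff₀ (by positivity)]
  have hm := PAA_mul p hPQ
  have hle : t ≤ (1 - p) ^ ((F P ∩ F Q).card) := by
    apply pow_le_pow_of_le_one hq.le (by linarith)
    exact card_inter hPQ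
  have hnn := PAA_nonneg h0 h1 P Q
  have hP := PA_mul_le h0 h1 P
  have hQ := PA_mul_le h0 h1 Q
  have hPn := PA_nonneg h0 h1 P
  have hQn := PA_nonneg h0 h1 Q
  calc PAA p P Q * (t * t * t) = (PAA p P Q * t) * (t * t) := by ring
    _ ≤ (PAA p P Q * (1 - p) ^ ((F P ∩ F Q).card)) * (t * t) := by
        apply mul_le_mul_of_nonneg_right _ (by positivity)
        exact mul_le_mul_of_nonneg_left hle hnn
    _ = (PA p P * t) * (PA p Q * t) := by rw [hm]; ring
    _ ≤ Lo n k p * Lo n k p := by
        apply mul_le_mul hP hQ (by positivity) (Lo_pos h0 h1).le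
    _ = (Lo n k p) ^ 2 := by ring

open scoped Classical in
lemma sum_overlap {p : ℝ} (h0 : 0 < p) (h1 : p < 1) (P : Idx n k) :
    ∑ Q : Idx n k, (if ¬ VDisj P Q then PAA p P Q else 0) ≤ (k + 1) * PA p P := by
  have h : ∀ Q : Idx n k, (if ¬ VDisj P Q then PAA p P Q else 0) =
      ∑ b : (cube n).edgeSet → Bool, if A P b then (if A Q b ∧ ¬ VDisj P Q then W p b else 0) else 0 := by
    intro Q
    by_cases hV : VDisj P Q
    · simp [hV]
    · simp only [hV, not_false_eq_true, if_true, and_true]
      unfold PAA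
      refine Finset.sum_congr rfl fun b _ => ?_
      by_cases h1 : A P b <;> by_cases h2 : A Q b <;> simp [h1, h2]
  simp_rw [h]
  rw [Finset.sum_comm]
  unfold PA
  rw [Finset.mul_sum]
  refine Finset.sum_le_sum fun b _ => ?_
  by_cases hA : A P b
  · simp only [hA, if_true]
    rw [← Finset.sum_filter, Finset.sum_const, nsmul_eq_mul]
    apply mul_le_mul_of_nonneg_right _ (W_nonneg h0.le h1.le b)
    exact_mod_cast card_overlap hA
  · simp [hA]

open scoped Classical in
/-- number of lone paths -/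
noncomputable def X (n k : ℕ) (b : (cube n).edgeSet → Bool) : ℝ :=
  ∑ P : Idx n k, if A P b then (1 : ℝ) else 0

/-- expected number of lone paths -/
noncomputable def EX (n k : ℕ) (p : ℝ) : ℝ := ∑ P : Idx n k, PA p P

lemma EX_eq (p : ℝ) : ∑ b : (cube n).edgeSet → Bool, W p b * X n k b = EX n k p := by
  classical
  unfold X EX PA
  simp_rw [Finset.mul_sum]
  rw [Finset.sum_comm]
  refine Finset.sum_congr rfl fun P _ => Finset.sum_congr rfl fun b _ => ?_
  by_cases h : A P b <;> simp [h]

lemma EX2_eq (p : ℝ) : ∑ b : (cube n).edgeSet → Bool, W p b * (X n k b) ^ 2 =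
    ∑ P : Idx n k, ∑ Q : Idx n k, PAA p P Q := by
  classical
  have h : ∀ b : (cube n).edgeSet → Bool, W p b * (X n k b) ^ 2 =
      ∑ P : Idx n k, ∑ Q : Idx n k, if A P b ∧ A Q b then W p b else 0 := by
    intro b
    unfold X
    rw [sq, Finset.sum_mul_sum, Finset.mul_sum]
    refine Finset.sum_congr rfl fun P _ => ?_
    rw [Finset.mul_sum]
    refine Finset.sum_congr rfl fun Q _ => ?_
    by_cases h1 : A P b <;> by_cases h2 : A Q b <;> simp [h1, h2]
  simp_rw [h]
  rw [Finset.sum_comm]
  refine Finset.sum_congr rfl fun P _ => ?_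
  rw [Finset.sum_comm]
  refine Finset.sum_congr rfl fun Q _ => ?_
  unfold PAA
  refine Finset.sum_congr rfl fun b _ => ?_
  congr

lemma card_Idx : (Fintype.card (Idx n k) : ℝ) = 2 ^ n * (Fintype.card (Fin k ↪ Fin n) : ℝ) := by
  simp [Fintype.card_prod]

lemma EX_ge {p : ℝ} (h0 : 0 < p) (h1 : p < 1) :
    2 ^ n * (Fintype.card (Fin k ↪ Fin n) : ℝ) * Lo n k p ≤ EX n k p := by
  unfold EX
  calc 2 ^ n * (Fintype.card (Fin k ↪ Fin n) : ℝ) * Lo n k p
      = ∑ P : Idx n k, Lo n k p := by
        rw [Finset.sum_const, Finset.card_univ, nsmul_eq_mul, card_Idx]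
    _ ≤ _ := Finset.sum_le_sum fun P _ => Lo_le_PA h0 h1 P

open scoped Classical in
lemma EX2_le {p : ℝ} (h0 : 0 < p) (h1 : p < 1) :
    ∑ P : Idx n k, ∑ Q : Idx n k, PAA p P Q ≤ (k + 1) * EX n k p + (EX n k p) ^ 2 +
      (EX n k p) ^ 2 * (((k + 1) * (k + 1) * n) / (2 ^ n * (1 - p) ^ (3 * ((k + 1) * (k + 1))))) := by
  have hq : 0 < 1 - p := by linarith
  set B : ℝ := (Lo n k p) ^ 2 / (1 - p) ^ (3 * ((k + 1) * (k + 1))) with hB
  have hBnn : 0 ≤ B := by positivity
  have hsplit : ∀ P Q : Idx n k, PAA p P Q ≤ (if ¬ VDisj P Q then PAA p P Q else 0)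
      + PA p P * PA p Q + (if VDisj P Q ∧ (F P ∩ F Q).Nonempty then B else 0) := by
    intro P Q
    have hPP := mul_nonneg (PA_nonneg h0 h1 P) (PA_nonneg h0 h1 Q)
    by_cases hV : VDisj P Q
    · by_cases hT : (F P ∩ F Q).Nonempty
      · simp only [hV, hT, not_true_eq_false, if_false, and_self, if_true]
        have := PAA_le_touch h0 h1 hV
        rw [← hB] at this
        linarith
      · have hm := PAA_mul p hV
        rw [Finset.not_nonempty_iff_eq_empty] at hT
        rw [hT] at hm
        simp at hm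
        simp only [hV, not_true_eq_false, if_false]
        rw [hm]
        have : 0 ≤ (if True ∧ (F P ∩ F Q).Nonempty then B else 0) := by
          split_ifs
          · exact hBnn
          · exact le_rfl
        linarith
    · simp only [hV, not_false_eq_true, if_true, false_and, if_false]
      linarith
  have hsum : ∑ P : Idx n k, ∑ Q : Idx n k, PAA p P Q ≤
      ∑ P : Idx n k, ((k + 1) * PA p P + PA p P * EX n k p +
        ((k + 1) * (k + 1) * n * (Fintype.card (Fin k ↪ Fin n) : ℝ)) * B) := by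
    refine Finset.sum_le_sum fun P _ => ?_
    calc ∑ Q : Idx n k, PAA p P Q ≤ ∑ Q : Idx n k, ((if ¬ VDisj P Q then PAA p P Q else 0)
          + PA p P * PA p Q + (if VDisj P Q ∧ (F P ∩ F Q).Nonempty then B else 0)) :=
          Finset.sum_le_sum fun Q _ => hsplit P Q
      _ = ∑ Q : Idx n k, (if ¬ VDisj P Q then PAA p P Q else 0) + PA p P * EX n k p
          + ∑ Q : Idx n k, (if VDisj P Q ∧ (F P ∩ F Q).Nonempty then B else 0) := by
          rw [Finset.sum_add_distrib, Finset.sum_add_distrib, ← Finset.mul_sum]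
          rfl
      _ ≤ _ := by
          have h2 := sum_overlap h0 h1 P
          have h3 : ∑ Q : Idx n k, (if VDisj P Q ∧ (F P ∩ F Q).Nonempty then B else 0) ≤
              ((k + 1) * (k + 1) * n * (Fintype.card (Fin k ↪ Fin n) : ℝ)) * B := by
            rw [← Finset.sum_filter, Finset.sum_const, nsmul_eq_mul]
            apply mul_le_mul_of_nonneg_right _ hBnn
            exact_mod_cast card_touch P
          linarith
  refine hsum.trans ?_
  rw [Finset.sum_add_distrib, Finset.sum_add_distrib, ← Finset.mul_sum, ← Finset.sum_mul,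
    Finset.sum_const, Finset.card_univ, nsmul_eq_mul, card_Idx]
  have hE : ∑ P : Idx n k, PA p P = EX n k p := rfl
  rw [hE]
  have hEge := EX_ge (n := n) (k := k) h0 h1
  set M : ℝ := (Fintype.card (Fin k ↪ Fin n) : ℝ) with hM
  have hMnn : 0 ≤ M := by positivity
  have hLo := Lo_pos (n := n) (k := k) h0 h1
  have hlast : 2 ^ n * M * ((k + 1) * (k + 1) * n * M * B) ≤
      (EX n k p) ^ 2 * (((k + 1) * (k + 1) * n) / (2 ^ n * (1 - p) ^ (3 * ((k + 1) * (k + 1))))) := by
    have e1 : 2 ^ n * M * ((k + 1) * (k + 1) * n * M * B) =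
        (2 ^ n * M * Lo n k p) ^ 2 *
          (((k + 1) * (k + 1) * n) / (2 ^ n * (1 - p) ^ (3 * ((k + 1) * (k + 1))))) := by
      rw [hB]
      have hx : (2 : ℝ) ^ n ≠ 0 := by positivity
      have hy : (1 - p) ^ (3 * ((k + 1) * (k + 1))) ≠ 0 := by positivity
      field_simp
    rw [e1]
    apply mul_le_mul_of_nonneg_right _ (by positivity)
    apply pow_le_pow_left₀ (by positivity) hEge
  have : EX n k p * EX n k p = (EX n k p) ^ 2 := by ring
  linarith

open scoped Classical in
/-- Chebyshev: the probability that there is no lone path. -/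
lemma noPath_le {p : ℝ} (h0 : 0 < p) (h1 : p < 1) (hE : 0 < EX n k p) :
    ∑ b : (cube n).edgeSet → Bool, (if ∃ P : Idx n k, A P b then 0 else W p b) ≤
      (k + 1) / EX n k p +
        ((k + 1) * (k + 1) * n) / (2 ^ n * (1 - p) ^ (3 * ((k + 1) * (k + 1)))) := by
  set E := EX n k p with hEdef
  set Z : ℝ := ∑ b : (cube n).edgeSet → Bool, (if ∃ P : Idx n k, A P b then 0 else W p b) with hZ
  have h2 := EX2_le (n := n) (k := k) h0 h1
  rw [← EX2_eq] at h2
  have h3 := EX_eq (n := n) (k := k) p
  have h4 : ∑ b : (cube n).edgeSet → Bool, W p b * (X n k b - E) ^ 2 =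
      ∑ b : (cube n).edgeSet → Bool, W p b * (X n k b) ^ 2 - E ^ 2 := by
    have : ∀ b : (cube n).edgeSet → Bool, W p b * (X n k b - E) ^ 2 =
        W p b * (X n k b) ^ 2 - 2 * E * (W p b * X n k b) + E ^ 2 * W p b := by
      intro b; ring
    simp_rw [this]
    rw [Finset.sum_add_distrib, Finset.sum_sub_distrib, ← Finset.mul_sum, ← Finset.mul_sum, h3,
      sum_W]
    rw [← hEdef]
    ring
  have h5 : Z * E ^ 2 ≤ ∑ b : (cube n).edgeSet → Bool, W p b * (X n k b - E) ^ 2 := by
    rw [hZ, Finset.sum_mul]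
    refine Finset.sum_le_sum fun b _ => ?_
    have hW := W_nonneg h0.le h1.le b
    split_ifs with hb
    · rw [zero_mul]
      positivity
    · have hX : X n k b = 0 := by
        unfold X
        apply Finset.sum_eq_zero
        intro P _
        rw [if_neg]
        intro hP
        exact hb ⟨P, hP⟩
      rw [hX]
      have : (0 - E) ^ 2 = E ^ 2 := by ring
      rw [this]
  rw [h4] at h5
  rw [← hEdef] at h2
  set R : ℝ := ((k + 1) * (k + 1) * n) / (2 ^ n * (1 - p) ^ (3 * ((k + 1) * (k + 1)))) with hR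
  have h6 : Z * E ^ 2 ≤ (k + 1) * E + E ^ 2 * R := by linarith
  have h7 : Z ≤ ((k + 1) * E + E ^ 2 * R) / E ^ 2 := by
    rw [le_div_iff₀ (by positivity)]
    exact h6
  refine h7.trans (le_of_eq ?_)
  field_simp

end Moments

/-! ### The component -/

section Comp

variable {n k : ℕ}

/-- If the path is alone then its vertices form a component. -/
lemma exists_comp (P : Idx n k) (b : (cube n).edgeSet → Bool) (hA : A P b) :
    ∃ D : (h n (fun _ => true, b)).coe.ConnectedComponent, D.supp.ncard = k + 1 := by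
  set ω : Config n := (fun _ => true, b) with hω
  let f : Fin (k + 1) → (h n ω).verts := fun j => ⟨vert P j, rfl⟩
  have hf : Function.Injective f := by
    intro i j hij
    have : vert P i = vert P j := congrArg Subtype.val hij
    exact Fin.ext (vert_inj (by omega) (by omega) this)
  let x0 : (h n ω).verts := f 0
  refine ⟨(h n ω).coe.connectedComponentMk x0, ?_⟩
  have hsupp : ((h n ω).coe.connectedComponentMk x0).supp = f '' Set.univ := by
    ext u
    rw [SimpleGraph.ConnectedComponent.mem_supp_iff, SimpleGraph.ConnectedComponent.eq,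
      Set.image_univ, Set.mem_range]
    constructor
    · intro hr
      have hr' := hr.symm
      obtain ⟨w⟩ := hr'
      have key : ∀ (u v : (h n ω).verts) (w : (h n ω).coe.Walk u v), (∃ j, f j = u) →
          ∃ j, f j = v := by
        intro u v w
        induction w with
        | nil => exact id
        | @cons u v w' hadj _ ih =>
          rintro ⟨j, hj⟩
          apply ih
          have hadj' : (h n ω).Adj u.1 v.1 := hadj
          obtain ⟨_, _, a, ha⟩ := hadj'
          have hju : vert P j = u.1 := congrArg Subtype.val hj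
          have heF : (⟨s(u.1, v.1), a⟩ : (cube n).edgeSet) ∈ F P :=
            mem_F.mpr ⟨j, by omega, by rw [hju]; exact Sym2.mem_mk_left _ _⟩
          obtain ⟨l, hl, hle⟩ := mem_O.mp (mem_O_of_A hA heF ha)
          have hmem : v.1 ∈ s(vert P l, vert P (l + 1)) := by
            rw [← hle]; exact Sym2.mem_mk_right _ _
          rw [Sym2.mem_iff] at hmem
          rcases hmem with h1 | h1
          · exact ⟨⟨l, by omega⟩, Subtype.ext h1.symm⟩
          · exact ⟨⟨l + 1, by omega⟩, Subtype.ext h1.symm⟩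
      exact key x0 u w ⟨0, rfl⟩
    · rintro ⟨j, rfl⟩
      have key : ∀ i : ℕ, ∀ hi : i < k + 1, (h n ω).coe.Reachable (f ⟨i, hi⟩) x0 := by
        intro i
        induction i with
        | zero => intro hi; exact SimpleGraph.Reachable.refl _
        | succ i ih =>
          intro hi
          have hik : i < k := by omega
          refine SimpleGraph.Reachable.trans ?_ (ih (by omega))
          apply SimpleGraph.Adj.reachable
          have : (h n ω).Adj (vert P i) (vert P (i + 1)) := by
            refine ⟨rfl, rfl, vert_adj P hik, ?_⟩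
            exact open_of_A hA (mem_O.mpr ⟨i, hik, rfl⟩)
          exact this.symm
      exact key j.val j.isLt
  rw [hsupp, Set.ncard_image_of_injective _ hf, Set.ncard_univ, Nat.card_eq_fintype_card,
    Fintype.card_fin]

open scoped Classical in
/-- For `p_v = 1` the vertex labels are all `true`. -/
lemma prob_one (n : ℕ) (p : ℝ) (S : Set (Config n)) :
    prob n 1 p S = ∑ b : (cube n).edgeSet → Bool,
      if ((fun _ => true, b) : Config n) ∈ S then W p b else 0 := by
  unfold prob
  rw [Fintype.sum_prod_type]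
  rw [Finset.sum_eq_single (fun _ => true : (Fin n → Bool) → Bool)]
  · refine Finset.sum_congr rfl fun b _ => ?_
    have : (∏ v : Fin n → Bool, bern 1 ((fun _ => true : (Fin n → Bool) → Bool) v)) = 1 := by
      simp [bern]
    simp only [this, one_mul]
    rfl
  · intro a _ ha
    apply Finset.sum_eq_zero
    intro b _
    have : (∏ v : Fin n → Bool, bern 1 (a v)) = 0 := by
      have : ∃ v, a v ≠ true := by
        by_contra hcon
        push Not at hcon
        exact ha (funext hcon)
      obtain ⟨v, hv⟩ := this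
      apply Finset.prod_eq_zero (Finset.mem_univ v)
      simp [bern, hv]
    simp only [this, zero_mul]
    simp
  · intro h
    exact absurd (Finset.mem_univ _) h

end Comp

/-! ### Numerical estimates -/

section Numeric

lemma mp_spec {p : ℝ} (h0 : 0 < p) (h1 : p < 1) :
    1 / 2 ≤ (1 - p) ^ (mp p) ∧ (1 - p) ^ (mp p + 1) < 1 / 2 := by
  have hq0 : 0 < 1 - p := by linarith
  have hq1 : 1 - p < 1 := by linarith
  have hlog : Real.log (1 - p) < 0 := Real.log_neg hq0 hq1
  have hl2 : 0 < Real.log 2 := Real.log_pos (by norm_num)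
  set t : ℝ := -1 / Real.logb 2 (1 - p) with ht
  have ht' : t = Real.log 2 / (- Real.log (1 - p)) := by
    rw [ht, Real.logb]
    field_simp
  have htpos : 0 ≤ t := by
    rw [ht']
    apply div_nonneg hl2.le
    linarith
  have hfl : ((mp p : ℕ) : ℝ) ≤ t := Nat.floor_le htpos
  have hfl2 : t < (mp p : ℕ) + 1 := Nat.lt_floor_add_one t
  have hneg : 0 < - Real.log (1 - p) := by linarith
  constructor
  · rw [ht', le_div_iff₀ hneg] at hfl
    rw [← Real.log_le_log_iff (by norm_num) (by positivity), Real.log_pow, Real.log_div (by norm_num)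
      (by norm_num), Real.log_one]
    linarith
  · rw [ht', div_lt_iff₀ hneg] at hfl2
    rw [← Real.log_lt_log_iff (by positivity) (by norm_num), Real.log_pow, Real.log_div (by norm_num)
      (by norm_num), Real.log_one]
    push_cast
    linarith

lemma aux1 (n s k : ℕ) (hs : 1 ≤ s) (h1 : s * s ≤ n) (hk : k < s) :
    (s - 1) * s + k ≤ n + 1 := by
  obtain ⟨r, rfl⟩ : ∃ r, s = r + 1 := ⟨s - 1, by omega⟩
  have h2 : (r + 1) * (r + 1) = r * (r + 1) + (r + 1) := by ring
  have h3 : r + 1 - 1 = r := rfl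
  rw [h3]
  omega

/-- the numerical facts needed when `n` lies between `s²` and `(s+1)²` -/
lemma numeric (n s : ℕ) (hs : 257 ≤ s) (h1 : s * s ≤ n) (h2 : n < (s + 1) * (s + 1)) :
    mp (1 / (s : ℝ)) + 1 ≤ s ∧
    4 * ((mp (1 / (s : ℝ)) : ℝ) + 1) ≤ 2 ^ n *
      (Fintype.card (Fin (mp (1 / (s : ℝ))) ↪ Fin n) : ℝ) * Lo n (mp (1 / (s : ℝ))) (1 / (s : ℝ)) ∧
    ((mp (1 / (s : ℝ)) + 1) * (mp (1 / (s : ℝ)) + 1) * n : ℝ) /
      (2 ^ n * (1 - 1 / (s : ℝ)) ^ (3 * ((mp (1 / (s : ℝ)) + 1) * (mp (1 / (s : ℝ)) + 1)))) ≤ 1 / 4 := by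
  have hsR : (257 : ℝ) ≤ s := by exact_mod_cast hs
  have hspos : (0 : ℝ) < s := by linarith
  set p : ℝ := 1 / (s : ℝ) with hp
  have hp0 : 0 < p := by positivity
  have hps : p * s = 1 := by rw [hp]; field_simp
  have hp2 : p ≤ 1 / 257 := by
    rw [hp]
    apply one_div_le_one_div_of_le (by norm_num) hsR
  have hp1 : p < 1 := by linarith
  obtain ⟨F1, F2⟩ := mp_spec hp0 hp1
  set k := mp p with hk
  set q : ℝ := 1 - p with hq
  have hq0 : 0 < q := by linarith
  have hq1 : q ≤ 1 := by linarith
  have hqh : 1 / 2 ≤ q := by linarith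
  -- k < s
  have hks : k < s := by
    by_contra hcon
    push Not at hcon
    have h3 : q ^ k ≤ q ^ s := pow_le_pow_of_le_one hq0.le hq1 hcon
    have h4 : q ^ s ≤ Real.exp (-1) := by
      have := Real.one_sub_div_pow_le_exp_neg (n := s) (t := 1) (by linarith)
      rw [hq, hp]
      exact this
    have h5 : Real.exp (-1) < 1 / 2 := by
      have := Real.exp_one_gt_d9
      rw [Real.exp_neg]
      rw [inv_eq_one_div]
      apply one_div_lt_one_div_of_lt (by norm_num)
      linarith
    linarith
  -- s ≤ 2 k + 1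
  have hsk : s ≤ 2 * k + 1 := by
    have hB := one_add_mul_le_pow (a := -p) (by linarith) (k + 1)
    have h3 : (1 : ℝ) + (-p) = q := by rw [hq]; ring
    rw [h3] at hB
    have h4 : (1 : ℝ) / 2 < (k + 1) * p := by
      push_cast at hB
      linarith
    have h5 : (s : ℝ) < 2 * (k + 1) := by
      have : (1 : ℝ) / 2 * s < (k + 1) * p * s := by
        apply mul_lt_mul_of_pos_right h4 hspos
      rw [mul_assoc, hps] at this
      linarith
    have h6 : s < 2 * (k + 1) := by exact_mod_cast h5
    omega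
  have hk128 : 128 ≤ k := by omega
  refine ⟨hks, ?_, ?_⟩
  · -- expected number
    have hcard : ((n + 1 - k : ℕ) : ℝ) ^ k ≤ (Fintype.card (Fin k ↪ Fin n) : ℝ) := by
      rw [Fintype.card_embedding_eq, Fintype.card_fin, Fintype.card_fin]
      exact_mod_cast Nat.pow_sub_le_descFactorial n k
    have hnk : (s : ℝ) - 1 ≤ ((n + 1 - k : ℕ) : ℝ) * p := by
      have h3 : (s - 1) * s ≤ n + 1 - k := by
        have := aux1 n s k (by omega) h1 hks
        omega
      have h4 : (((s - 1) * s : ℕ) : ℝ) ≤ ((n + 1 - k : ℕ) : ℝ) := by exact_mod_cast h3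
      have h5 : (((s - 1) * s : ℕ) : ℝ) = ((s : ℝ) - 1) * s := by
        push_cast [Nat.cast_sub (by omega : 1 ≤ s)]
        ring
      rw [h5] at h4
      calc (s : ℝ) - 1 = ((s : ℝ) - 1) * s * p := by rw [mul_assoc, mul_comm (s : ℝ) p, hps, mul_one]
        _ ≤ _ := mul_le_mul_of_nonneg_right h4 hp0.le
    have hqs : 1 / 8 ≤ q ^ s := by
      calc (1 : ℝ) / 8 = (1 / 2) * (1 / 2) * (1 / 2) := by norm_num
        _ ≤ q ^ k * q ^ k * q := by
            apply mul_le_mul _ hqh (by norm_num) (by positivity)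
            apply mul_le_mul F1 F1 (by norm_num) (by positivity)
        _ = q ^ (2 * k + 1) := by ring
        _ ≤ q ^ s := pow_le_pow_of_le_one hq0.le hq1 hsk
    have hqn : (1 / 8) ^ (s + 2) * (1 / 2) ≤ q ^ n := by
      calc (1 / 8 : ℝ) ^ (s + 2) * (1 / 2) ≤ (q ^ s) ^ (s + 2) * q := by
            apply mul_le_mul _ hqh (by norm_num) (by positivity)
            exact pow_le_pow_left₀ (by norm_num) hqs _
        _ = q ^ (s * (s + 2) + 1) := by rw [← pow_mul, ← pow_succ]
        _ ≤ q ^ n := pow_le_pow_of_le_one hq0.le hq1 (by nlinarith)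
    have h2q : (1 : ℝ) ≤ 2 ^ n * q ^ (k * n) := by
      rw [pow_mul, ← mul_pow]
      apply one_le_pow₀
      linarith
    have hmain : ((s : ℝ) - 1) ^ k * ((1 / 8) ^ (s + 2) * (1 / 2)) ≤
        2 ^ n * (Fintype.card (Fin k ↪ Fin n) : ℝ) * Lo n k p := by
      calc ((s : ℝ) - 1) ^ k * ((1 / 8) ^ (s + 2) * (1 / 2))
          ≤ (((n + 1 - k : ℕ) : ℝ) * p) ^ k * q ^ n := by
            apply mul_le_mul _ hqn (by positivity) (by positivity)
            exact pow_le_pow_left₀ (by linarith) hnk _
        _ ≤ 2 ^ n * q ^ (k * n) * ((((n + 1 - k : ℕ) : ℝ) * p) ^ k * q ^ n) :=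
            le_mul_of_one_le_left (by positivity) h2q
        _ = 2 ^ n * ((n + 1 - k : ℕ) : ℝ) ^ k * (p ^ k * q ^ ((k + 1) * n)) := by
            rw [mul_pow]
            have : q ^ ((k + 1) * n) = q ^ (k * n) * q ^ n := by
              rw [← pow_add]; congr 1; ring
            rw [this]
            ring
        _ ≤ 2 ^ n * (Fintype.card (Fin k ↪ Fin n) : ℝ) * Lo n k p := by
            unfold Lo
            apply mul_le_mul_of_nonneg_right _ (by positivity)
            exact mul_le_mul_of_nonneg_left hcard (by positivity)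
    refine le_trans ?_ hmain
    -- 4 (k+1) ≤ (s-1)^k (1/8)^(s+2) / 2
    have h3 : (256 : ℝ) ^ k ≤ ((s : ℝ) - 1) ^ k := pow_le_pow_left₀ (by norm_num) (by linarith) _
    have h4 : (1 / 8 : ℝ) ^ (2 * k + 3) ≤ (1 / 8 : ℝ) ^ (s + 2) :=
      pow_le_pow_of_le_one (by norm_num) (by norm_num) (by omega)
    have h5 : (k : ℝ) + 1 ≤ 2 ^ k := by
      have := Nat.lt_two_pow_self (n := k)
      exact_mod_cast this
    have h6 : (4096 : ℝ) ≤ 2 ^ k := by
      calc (4096 : ℝ) = 2 ^ 12 := by norm_num
        _ ≤ 2 ^ k := pow_le_pow_right₀ (by norm_num) (by omega)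
    calc 4 * ((k : ℝ) + 1) ≤ 4 * 2 ^ k := by linarith
      _ ≤ 4 * 2 ^ k * (2 ^ k / 4096) := by
          apply le_mul_of_one_le_right (by positivity)
          rw [le_div_iff₀ (by norm_num)]
          linarith
      _ = 256 ^ k * ((1 / 8) ^ (2 * k + 3) * (1 / 2)) := by
          rw [pow_add, pow_mul]
          have : (256 : ℝ) ^ k * (((1 / 8) ^ 2) ^ k * (1 / 8) ^ 3 * (1 / 2)) =
              (256 * (1 / 8) ^ 2) ^ k * ((1 / 8) ^ 3 * (1 / 2)) := by
            rw [mul_pow]; ring
          rw [this]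
          have h7 : (256 * (1 / 8 : ℝ) ^ 2) = 2 * 2 := by norm_num
          rw [h7, mul_pow]
          ring
      _ ≤ ((s : ℝ) - 1) ^ k * ((1 / 8) ^ (s + 2) * (1 / 2)) := by
          apply mul_le_mul h3 _ (by positivity) (pow_nonneg (by linarith) _)
          apply mul_le_mul_of_nonneg_right h4 (by norm_num)
  · -- second term
    have hqk1 : 1 / 4 ≤ q ^ (k + 1) := by
      rw [pow_succ]
      calc (1 : ℝ) / 4 = (1 / 2) * (1 / 2) := by norm_num
        _ ≤ _ := mul_le_mul F1 hqh (by norm_num) (by positivity)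
    have hqq : (1 / 64 : ℝ) ^ s ≤ q ^ (3 * ((k + 1) * (k + 1))) := by
      calc (1 / 64 : ℝ) ^ s ≤ (1 / 64 : ℝ) ^ (k + 1) :=
            pow_le_pow_of_le_one (by norm_num) (by norm_num) (by omega)
        _ = (1 / 4 : ℝ) ^ (3 * (k + 1)) := by rw [pow_mul]; norm_num
        _ ≤ (q ^ (k + 1)) ^ (3 * (k + 1)) := pow_le_pow_left₀ (by norm_num) hqk1 _
        _ = q ^ (3 * ((k + 1) * (k + 1))) := by rw [← pow_mul]; congr 1; ring
    rw [div_le_iff₀ (by positivity)]
    have hN : 16 * (s * s * (s * s)) * 64 ^ s ≤ 2 ^ n := by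
      have h3 : s ≤ 2 ^ s := Nat.lt_two_pow_self.le
      calc 16 * (s * s * (s * s)) * 64 ^ s
          ≤ 16 * (2 ^ s * 2 ^ s * (2 ^ s * 2 ^ s)) * 64 ^ s := by gcongr
        _ = 2 ^ (10 * s + 4) := by
            rw [show (64 : ℕ) = 2 ^ 6 by norm_num, ← pow_mul]
            rw [show (16 : ℕ) = 2 ^ 4 by norm_num]
            rw [← pow_add, ← pow_add, ← pow_add, ← pow_add]
            congr 1
            ring
        _ ≤ 2 ^ n := by
            apply Nat.pow_le_pow_right (by norm_num)
            nlinarith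
    have hN' : (16 * ((s : ℝ) * s * (s * s))) * 64 ^ s ≤ 2 ^ n := by exact_mod_cast hN
    have hkk : ((k : ℝ) + 1) ≤ s := by exact_mod_cast hks
    have hn4 : (n : ℝ) ≤ 4 * (s * s) := by
      have : n ≤ 4 * (s * s) := by nlinarith
      exact_mod_cast this
    have h64 : (0 : ℝ) < 64 ^ s := by positivity
    calc ((k : ℝ) + 1) * (k + 1) * n ≤ s * s * (4 * (s * s)) := by gcongr
      _ = 1 / 4 * ((16 * ((s : ℝ) * s * (s * s))) * 64 ^ s * (1 / 64) ^ s) := by
          rw [one_div_pow]
          field_simp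
          ring
      _ ≤ 1 / 4 * (2 ^ n * q ^ (3 * ((k + 1) * (k + 1)))) := by
          apply mul_le_mul_of_nonneg_left _ (by norm_num)
          apply mul_le_mul hN' hqq (by positivity) (by positivity)

end Numeric

open scoped Classical in
/-- For large `n` and `p_v = 1`, `p_e = 1/⌊√n⌋` the three properties fail with probability at least
one half. -/
lemma prob_good_le (n s : ℕ) (hs : 257 ≤ s) (h1 : s * s ≤ n) (h2 : n < (s + 1) * (s + 1)) (η : ℝ)
    (hη : η ≤ 1 / 2) :
    prob n 1 (1 / (s : ℝ)) {ω | Good n (mp (1 / (s : ℝ))) η ω} ≤ 1 / 2 := by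
  obtain ⟨hks, hE, hR⟩ := numeric n s hs h1 h2
  have hsR : (257 : ℝ) ≤ s := by exact_mod_cast hs
  set p : ℝ := 1 / (s : ℝ) with hp
  have hp0 : 0 < p := by rw [hp]; positivity
  have hp2 : p ≤ 1 / 257 := by
    rw [hp]
    apply one_div_le_one_div_of_le (by norm_num) hsR
  have hp1 : p < 1 := by linarith
  set k := mp p with hk
  have hEX := (hE.trans (EX_ge (n := n) (k := k) hp0 hp1))
  have hkpos : (0 : ℝ) < (k : ℝ) + 1 := by positivity
  have hEpos : 0 < EX n k p := by linarith
  have hno := noPath_le (n := n) (k := k) hp0 hp1 hEpos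
  have h3 : ((k : ℝ) + 1) / EX n k p ≤ 1 / 4 := by
    rw [div_le_iff₀ hEpos]
    linarith
  have h4 : ∑ b : (cube n).edgeSet → Bool, (if ∃ P : Idx n k, A P b then 0 else W p b) ≤ 1 / 2 := by
    linarith
  refine le_trans ?_ h4
  rw [prob_one]
  refine Finset.sum_le_sum fun b _ => ?_
  by_cases hP : ∃ P : Idx n k, A P b
  · rw [if_pos hP, if_neg]
    rintro ⟨C, hC1, hC2, _⟩
    obtain ⟨P, hA⟩ := hP
    obtain ⟨D, hD⟩ := exists_comp P b hA
    have hDC : D = C := by
      by_contra hne
      have := hC2 D hne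
      omega
    subst hDC
    rw [hD] at hC1
    have hV : ((h n ((fun _ => true, b) : Config n)).verts.ncard : ℝ) = 2 ^ n := by
      have : (h n ((fun _ => true, b) : Config n)).verts = Set.univ := by
        ext v
        simp [h]
      rw [this, Set.ncard_univ, Nat.card_eq_fintype_card]
      simp
    rw [hV] at hC1
    have h5 : (1 / 2 : ℝ) * 2 ^ n ≤ ((k + 1 : ℕ) : ℝ) := by
      refine le_trans ?_ hC1
      apply mul_le_mul_of_nonneg_right _ (by positivity)
      linarith
    have h6 : 2 * (k + 1) < 2 ^ n := by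
      have h7 : 2 * s ≤ n := by nlinarith
      have h8 : n < 2 ^ n := Nat.lt_two_pow_self
      omega
    have h9 : (2 : ℝ) * ((k + 1 : ℕ) : ℝ) < 2 ^ n := by exact_mod_cast h6
    linarith
  · rw [if_neg hP]
    split_ifs
    · exact le_rfl
    · exact W_nonneg hp0.le hp1.le b

/-- Q1 is false: the assertion already fails for `p_v = 1`, `p_e = 1/⌊√n⌋`. -/
theorem result : ¬ Q1 := by
  intro hQ
  let s : ℕ → ℕ := fun n => max 1 (Nat.sqrt n)
  have hs1 : ∀ n, 1 ≤ s n := fun n => le_max_left _ _
  have hsR : ∀ n, (1 : ℝ) ≤ s n := fun n => by exact_mod_cast hs1 n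
  have hstend : Tendsto s atTop atTop := by
    rw [tendsto_atTop]
    intro B
    filter_upwards [eventually_ge_atTop (B * B)] with n hn
    exact le_trans (Nat.le_sqrt.mpr hn) (le_max_right _ _)
  have hstendR : Tendsto (fun n => (s n : ℝ)) atTop atTop :=
    tendsto_natCast_atTop_atTop.comp hstend
  have h := hQ (fun _ => 1) (fun n => 1 / (s n : ℝ)) (fun _ => ⟨one_pos, le_rfl⟩)
    (fun n => ⟨by have := hsR n; positivity, by
      rw [div_le_one (by have := hsR n; positivity)]; exact hsR n⟩)
  simp only [one_mul] at h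
  obtain ⟨η, hη, hlim⟩ := h
    (by
      have := tendsto_inv_atTop_zero.comp hstendR
      simpa [one_div, Function.comp_def] using this)
    (by
      apply tendsto_atTop_mono' _ _ hstendR
      filter_upwards [eventually_ge_atTop 1] with n hn
      have hsn : s n * s n ≤ n := by
        have h1 : 1 ≤ Nat.sqrt n := Nat.le_sqrt.mpr (by omega)
        have h2 : s n = Nat.sqrt n := max_eq_right h1
        rw [h2]
        exact Nat.sqrt_le n
      have hsn' : (s n : ℝ) * s n ≤ n := by exact_mod_cast hsn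
      have hpos : (0 : ℝ) < s n := by have := hsR n; linarith
      rw [one_div, inv_mul_eq_div, le_div_iff₀ hpos]
      exact hsn')
  have e1 : ∀ᶠ n in atTop, η n ≤ 1 / 2 := by
    have := hη.eventually (gt_mem_nhds (show (0 : ℝ) < 1 / 2 by norm_num))
    filter_upwards [this] with n hn
    exact hn.le
  have e2 : ∀ᶠ n in atTop, 1 / 2 <
      prob n 1 (1 / (s n : ℝ)) {ω | Good n (mp (1 / (s n : ℝ))) (η n) ω} :=
    hlim.eventually (lt_mem_nhds (by norm_num))
  have e3 : ∀ᶠ n in atTop, 257 ≤ Nat.sqrt n := by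
    filter_upwards [eventually_ge_atTop (257 * 257)] with n hn
    exact Nat.le_sqrt.mpr hn
  obtain ⟨n, ⟨hn1, hn2⟩, hn3⟩ := ((e1.and e2).and e3).exists
  have hsn : s n = Nat.sqrt n := max_eq_right (by omega)
  rw [hsn] at hn2
  have := prob_good_le n (Nat.sqrt n) hn3 (Nat.sqrt_le n) (Nat.lt_succ_sqrt n) (η n) hn1
  linarith

end Pool.Agent.Results.MP_677ad5_pr.SecondLargest
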